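import Mathlib
import Pool.Agent.TH984.GE.Ineq
import Pool.Agent.TH984.GE.Final

/-!
# The unbalanced Rogers–Shephard inequality

The volume of `a K + b (-K)` is a polynomial `∑ C(n,i) W_i a^i b^(n-i)` (mixed volumes of two
bodies), and by Godbersen's inequality `W_i ≤ C(n,i) vol K`.  For a simplex the sum
`∑ C(n,i)^2 a^i b^(n-i)` is attained.
-/

set_option autoImplicit false
set_option linter.all false

open MeasureTheory Set Multiset Module
open scoped Pointwise NNReal ENNReal

noncomputable section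

namespace Pool.Agent.H741UR

open Pool.Agent.TH650.MV Pool.Agent.TH984.PL Pool.Agent.TH984.GE12

/-- the volume of `a K + b (-K)` is a homogeneous polynomial in `a, b ≥ 0` -/
theorem expand {n : ℕ} {K : Set (EuclideanSpace ℝ (Fin n))}
    (hK : IsCompact K) (hc : Convex ℝ K) (hi : (interior K).Nonempty) :
    ∃ W : ℕ → ℝ, ∀ a b : ℝ, 0 ≤ a → 0 ≤ b → (volume (a • K + b • (-K))).toReal =
      ∑ i ∈ Finset.range (n + 1), (n.choose i : ℝ) * W i * a ^ i * b ^ (n - i) := by
  let B : ConvexBody (EuclideanSpace ℝ (Fin n)) := ⟨K, hc, hK, hi.mono interior_subset⟩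
  have hBK : (B : Set (EuclideanSpace ℝ (Fin n))) = K := rfl
  have hfin : finrank ℝ (EuclideanSpace ℝ (Fin n)) = n := by simp
  refine ⟨fun i => V volume (replicate i B + replicate (n - i) ((-1 : ℝ) • B)), ?_⟩
  intro a b ha hb
  lift a to ℝ≥0 using ha
  lift b to ℝ≥0 using hb
  have h1 := vl_two (volume : Measure (EuclideanSpace ℝ (Fin n))) B ((-1 : ℝ) • B) a b
  rw [hfin] at h1
  refine Eq.trans ?_ h1
  unfold vl
  have hneg : (-1 : ℝ) • K = -K := by
    ext x
    constructor
    · rintro ⟨y, hy, rfl⟩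
      simpa using hy
    · intro hx
      exact ⟨-x, hx, by simp⟩
  rw [ConvexBody.coe_add, ConvexBody.coe_smul', ConvexBody.coe_smul', ConvexBody.coe_smul, hBK,
    hneg]
  rfl

theorem sub_eq {n : ℕ} (K : Set (EuclideanSpace ℝ (Fin n))) (a b : ℝ) :
    a • K - b • K = a • K + b • (-K) := by
  rw [sub_eq_add_neg, Set.smul_set_neg]

/-- the upper bound for every body -/
theorem upper {n : ℕ} {K : Set (EuclideanSpace ℝ (Fin n))}
    (hK : IsCompact K) (hc : Convex ℝ K) (hi : (interior K).Nonempty) {a b : ℝ} (ha : 0 ≤ a)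
    (hb : 0 ≤ b) :
    volume (a • K - b • K) ≤
      ENNReal.ofReal (∑ i ∈ Finset.range (n + 1), (n.choose i : ℝ) ^ 2 * a ^ i * b ^ (n - i)) *
        volume K := by
  obtain ⟨W, hW⟩ := expand hK hc hi
  have h1 := fun j hj => (Pool.Agent.TH984.GE12.ineq n K hK hc hi W hW j hj).1
  have hfin : volume (a • K - b • K) ≠ ⊤ := by
    rw [sub_eq]
    exact ((hK.smul a).add (hK.neg.smul b)).measure_lt_top.ne
  have hKf : volume K ≠ ⊤ := hK.measure_lt_top.ne
  rw [← ENNReal.ofReal_toReal hfin, ← ENNReal.ofReal_toReal hKf,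
    ← ENNReal.ofReal_mul (Finset.sum_nonneg fun i _ => by positivity)]
  refine ENNReal.ofReal_le_ofReal ?_
  rw [sub_eq, hW a b ha hb, Finset.sum_mul]
  refine Finset.sum_le_sum fun i hi' => ?_
  have h2 := h1 i (by simpa [Nat.lt_succ_iff] using hi')
  calc (n.choose i : ℝ) * W i * a ^ i * b ^ (n - i)
      ≤ (n.choose i : ℝ) * ((n.choose i : ℝ) * (volume K).toReal) * a ^ i * b ^ (n - i) := by
        gcongr
    _ = _ := by ring

theorem main (n : ℕ) (K : Set (EuclideanSpace ℝ (Fin n)))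
    (hK : IsCompact K) (hc : Convex ℝ K) (hi : (interior K).Nonempty)
    (v : Fin (n + 1) → EuclideanSpace ℝ (Fin n)) (hv : AffineIndependent ℝ v)
    (hvol : volume (convexHull ℝ (Set.range v)) = volume K)
    (t : ℝ) (h0 : 0 ≤ t) (h1 : t ≤ 1) :
    volume ((1 - t) • K - t • K) / volume K ≤
      volume ((1 - t) • convexHull ℝ (Set.range v) - t • convexHull ℝ (Set.range v))
        / volume (convexHull ℝ (Set.range v)) := by
  rw [hvol]
  refine ENNReal.div_le_div_right ?_ _
  have h2 := upper hK hc hi (sub_nonneg.2 h1) h0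
  have h3 := Pool.Agent.TH984.GBS.t_SIMPLEX n v hv (1 - t) t (sub_nonneg.2 h1) h0
  rw [hvol] at h3
  exact h2.trans h3

end Pool.Agent.H741UR
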